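import Pool.Agent.SGP.FIN
import Pool.Agent.SGP.FIX
import Pool.Agent.SGP.OYV

/-!
# The exact exponential rate of the soft-reflection gap process, and its dependence on the number of particles

`n + 1` particles (`n ≥ 1`), drifts with `μ (i+1) < μ i`, `u = U'`. The supremum of the exponents of uniform ergodicity of
the gap process is the minimum of the spectral gaps of the one-dimensional diffusions with generators
`f'' + (U' - m_i) f'`, `m_i = μ 0 - μ (i+1)`. These are positive and at most `m_i ^ 2 / 4`, and for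
`U' y = a exp (-b y)` (the O'Connell-Yor case) they are `m ^ 2 / 4` if `m ≤ 2 b` and `b (m - b)` if `m > 2 b`. If `U'` is
convex the minimum is attained at the first gap, for every number of particles; for some potential, with all relative
drifts equal to `-1`, it tends to `0` as the number of particles tends to infinity.
-/

open MeasureTheory ProbabilityTheory Set Filter Topology
open scoped ENNReal NNReal

namespace Pool.Agent.Results.MP_25ed44_pr.ExactRate

open Pool.Agent.OYG Pool.Agent.SGP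

theorem result :
    (∀ {Ω : Type*} [MeasurableSpace Ω] (P : Measure Ω) [IsProbabilityMeasure P]
      (n : ℕ) (_ : 0 < n) (μ : Fin (n + 1) → ℝ) (_ : ∀ i : Fin n, μ i.succ < μ i.castSucc)
      (u : ℝ → ℝ) (_ : Pot u)
      (B : Fin (n + 1) → ℝ≥0 → Ω → ℝ) (_ : IsBMd P n B)
      (G : (Fin n → ℝ) → ℝ≥0 → Ω → Fin n → ℝ) (_ : ∀ x, IsGap n μ u B x (G x))
      (π : Measure (Fin n → ℝ)) (_ : IsStat P G π),
      IsLUB {δ : ℝ | 0 < δ ∧ UnifErg P G π δ} (⨅ i : Fin n, gap u (rel μ i))) ∧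
    (∀ (u : ℝ → ℝ) (m : ℝ), Pot u → 0 < m → 0 < gap u m ∧ gap u m ≤ m ^ 2 / 4) ∧
    (∀ a b m : ℝ, 0 < a → 0 < b → 0 < m →
      gap (fun y => a * Real.exp (-(b * y))) m = if m ≤ 2 * b then m ^ 2 / 4 else b * (m - b)) ∧
    (∀ (n : ℕ) (hn : 0 < n) (μ : Fin (n + 1) → ℝ) (_ : ∀ i : Fin n, μ i.succ < μ i.castSucc)
      (u : ℝ → ℝ) (_ : Pot u), ConvexOn ℝ univ u →
      (⨅ i : Fin n, gap u (rel μ i)) = gap u (rel μ ⟨0, hn⟩)) ∧
    (∃ u : ℝ → ℝ, Pot u ∧
      (∀ a b : ℝ, 0 < b → b < a → Tendsto (fun y => u (a * y) / u (b * y)) atBot atTop) ∧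
      Tendsto (fun n : ℕ => ⨅ i : Fin n, gap u (rel (fun j : Fin (n + 1) => -(j : ℝ)) i)) atTop (𝓝 0)) :=
  ⟨fun P _ n hn μ hμ u hu B hB G hG π hπ => exact_rate P n hn μ hμ u hu B hB G hG π hπ,
    fun _ _ hu hm => ⟨gap_pos hu hm, gap_le hu hm⟩,
    fun _ _ _ ha hb hm => gap_oy ha hb hm,
    fun _ hn _ hμ _ hu hc => inf_convex hn hμ hu hc, inf_to_zero⟩

end Pool.Agent.Results.MP_25ed44_pr.ExactRate
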